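import Pool.Agent.W555.KS.Defs

/-! KS-DTOP1: elimination of `d` variables. -/

set_option autoImplicit false

namespace Pool.Agent.W839.KS.DTop1

open Finset MvPolynomial Pool.Agent.W555.KS

/-- powers of the span of a family are spanned by the products over multisets -/
lemma span_pow_le {k B : Type*} [Field k] [CommRing B] [Algebra k B] {N : ℕ} (x : Fin N → B)
    (r : ℕ) : (Submodule.span k (Set.range x)) ^ r ≤
      Submodule.span k (Set.range fun s : Sym (Fin N) r => ((s : Multiset (Fin N)).map x).prod) := by
  rw [Submodule.span_pow]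
  apply Submodule.span_mono
  intro b hb
  rw [Set.mem_pow] at hb
  obtain ⟨f, rfl⟩ := hb
  have hf : ∀ i, ∃ w, x w = (f i : B) := fun i => (f i).2
  choose g hg using hf
  refine ⟨⟨(List.ofFn g : Multiset (Fin N)), by simp⟩, ?_⟩
  simp only [Sym.coe_mk, Multiset.map_coe, Multiset.prod_coe, List.map_ofFn]
  congr 2
  funext i
  exact hg i

lemma finrank_pow_le {k B : Type*} [Field k] [CommRing B] [Algebra k B] {N : ℕ} (x : Fin N → B)
    (r : ℕ) (P : Submodule k B) (hP : P ≤ (Submodule.span k (Set.range x)) ^ r) :
    Module.finrank k P ≤ (N + r - 1).choose r := by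
  have h1 := hP.trans (span_pow_le x r)
  have hfin : Module.Finite k (Submodule.span k
      (Set.range fun s : Sym (Fin N) r => ((s : Multiset (Fin N)).map x).prod)) :=
    Module.Finite.span_of_finite k (Set.finite_range _)
  have h2 := Submodule.finrank_mono h1
  refine h2.trans ?_
  refine (finrank_range_le_card _).trans ?_
  rw [Sym.card_sym_eq_choose, Fintype.card_fin]

theorem dtop1 (hmin : StMin) : StDTop1 := by
  intro n d L hdn r
  classical
  set I := Ij n d d L with hI
  set φ := Ideal.Quotient.mkₐ (Kf (d + 1) n) I with hφ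
  let x : Fin n → (MvPolynomial (Fin n) (Kf (d + 1) n) ⧸ I) := fun v => φ (X v)
  let x' : Fin (n - d) → (MvPolynomial (Fin n) (Kf (d + 1) n) ⧸ I) :=
    fun w => x (Fin.castLE (Nat.sub_le n d) w)
  set W := Submodule.span (Kf (d + 1) n) (Set.range x') with hW
  let g : Fin d → Fin n := fun j => ⟨n - d + j, by omega⟩
  have hg : Function.Injective g := by
    intro a b hab
    have h1 := congrArg Fin.val hab
    simp only [g] at h1
    exact Fin.ext (by omega)
  -- small variables
  have hsmall : ∀ v : Fin n, (v : ℕ) < n - d → x v ∈ W := by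
    intro v hv
    apply Submodule.subset_span
    exact ⟨⟨v, hv⟩, rfl⟩
  -- the relations
  have hrel : ∀ i : Fin d, ∑ v, gen (d + 1) n i.castSucc v • x v = 0 := by
    intro i
    have h1 : lf (gen (d + 1) n i.castSucc) ∈ I := by
      rw [hI]
      unfold Ij
      apply Ideal.mem_sup_right
      apply Ideal.subset_span
      exact ⟨i.castSucc, i.2, rfl⟩
    have h2 : φ (lf (gen (d + 1) n i.castSucc)) = 0 := by
      rw [hφ, Ideal.Quotient.mkₐ_eq_mk]
      exact Ideal.Quotient.eq_zero_iff_mem.2 h1
    rw [← h2]
    unfold lf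
    rw [map_sum]
    apply Finset.sum_congr rfl
    intro v _
    rw [← MvPolynomial.smul_eq_C_mul]
    exact (map_smul φ _ _).symm
  have himg : (univ : Finset (Fin d)).image g = univ.filter fun v : Fin n => ¬ (v : ℕ) < n - d := by
    ext v
    simp only [mem_image, mem_univ, true_and, mem_filter, not_lt]
    constructor
    · rintro ⟨j, rfl⟩
      simp only [g]
      omega
    · intro hv
      refine ⟨⟨v - (n - d), by have := v.2; omega⟩, ?_⟩
      apply Fin.ext
      simp only [g]
      omega
  have hbig : ∀ i : Fin d, ∑ j : Fin d, gen (d + 1) n i.castSucc (g j) • x (g j) ∈ W := by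
    intro i
    have h1 : ∑ j : Fin d, gen (d + 1) n i.castSucc (g j) • x (g j) =
        ∑ v ∈ univ.filter (fun v : Fin n => ¬ (v : ℕ) < n - d), gen (d + 1) n i.castSucc v • x v := by
      rw [← himg, Finset.sum_image hg.injOn]
    have h2 := Finset.sum_filter_add_sum_filter_not univ (fun v : Fin n => (v : ℕ) < n - d)
      (fun v => gen (d + 1) n i.castSucc v • x v)
    rw [hrel i] at h2
    rw [h1, eq_neg_of_add_eq_zero_right h2]
    apply Submodule.neg_mem
    apply Submodule.sum_mem
    intro v hv
    exact Submodule.smul_mem _ _ (hsmall v (mem_filter.1 hv).2)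
  -- inversion
  let M : Matrix (Fin d) (Fin d) (Kf (d + 1) n) :=
    Matrix.of (fun i j : Fin d => gen (d + 1) n (i.castSucc) (g j))
  have hdet : M.det ≠ 0 := hmin (d + 1) n d Fin.castSucc g (Fin.castSucc_injective d) hg
  have hinv : M⁻¹ * M = 1 := Matrix.nonsing_inv_mul M (isUnit_iff_ne_zero.2 hdet)
  have hlast : ∀ j : Fin d, x (g j) ∈ W := by
    intro j
    have h1 : x (g j) = ∑ i : Fin d, M⁻¹ j i • ∑ j' : Fin d, M i j' • x (g j') := by
      have h2 : ∀ j' : Fin d, ∑ i : Fin d, M⁻¹ j i * M i j' = if j = j' then 1 else 0 := by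
        intro j'
        have := congrFun (congrFun hinv j) j'
        rw [Matrix.mul_apply, Matrix.one_apply] at this
        exact this
      simp only [Finset.smul_sum, smul_smul]
      rw [Finset.sum_comm]
      simp only [← Finset.sum_smul, h2]
      simp
    rw [h1]
    apply Submodule.sum_mem
    intro i _
    exact Submodule.smul_mem _ _ (hbig i)
  have hall : ∀ v, x v ∈ W := by
    intro v
    by_cases hv : (v : ℕ) < n - d
    · exact hsmall v hv
    · have h1 : v ∈ (univ : Finset (Fin d)).image g := by
        rw [himg, mem_filter]; exact ⟨mem_univ _, hv⟩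
      obtain ⟨j, -, rfl⟩ := mem_image.1 h1
      exact hlast j
  -- conclusion
  have hmap : Submodule.map φ.toLinearMap (homogeneousSubmodule (Fin n) (Kf (d + 1) n) r) ≤
      W ^ r := by
    rw [← MvPolynomial.homogeneousSubmodule_one_pow, Submodule.map_pow]
    refine pow_le_pow_left' ?_ r
    rw [MvPolynomial.homogeneousSubmodule_one_eq_span_X, Submodule.map_span, Submodule.span_le]
    rintro _ ⟨_, ⟨v, rfl⟩, rfl⟩
    exact hall v
  have hfin := finrank_pow_le x' r _ hmap
  unfold dimQ
  rw [show n - d - 1 + r = n - d + r - 1 by omega]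
  exact hfin

end Pool.Agent.W839.KS.DTop1
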